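import Pool.Agent.U469.RT.Asm
import Pool.Agent.U469.RT.Trm
import Pool.Agent.U329.RT.HL
import Pool.Agent.U750.RT.Sum
import Pool.Agent.U423.RT.Opr
import Pool.Agent.U574.RT.Mix
import Pool.Agent.U606.RT.TOPSMB
import Pool.Agent.U15.RT.OPW
import Pool.Agent.U103.RT.Dom
import Pool.Agent.U399.RT.Spl
import Pool.Agent.U427.RT.Lib
import Pool.Agent.U739.RT.Opd
import Pool.Agent.U608.RT.LIA
import Pool.Agent.U128.RT.OPT

/-!
The weak type maximal inequality of every order for symmetric probability measures on the integers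
which are non-increasing on the natural numbers.
-/

set_option autoImplicit false

namespace Pool.Agent.Results.MP_e7950b_an.WeakTypeAllOrders

/-- Convolution of two functions on the integers. -/
noncomputable def conv (f g : ℤ → ℝ) (k : ℤ) : ℝ := ∑' j : ℤ, f j * g (k - j)

/-- Convolution powers; the zeroth power is the unit mass at the origin. -/
noncomputable def convPow (ν : ℤ → ℝ) : ℕ → ℤ → ℝ
  | 0 => fun k => if k = 0 then 1 else 0
  | n + 1 => conv ν (convPow ν n)

/-- the signed measure `δ₀ - μ` -/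
noncomputable def deltaSub (μ : ℤ → ℝ) (k : ℤ) : ℝ := (if k = 0 then 1 else 0) - μ k

/-- the kernel `μ^{*n} * (δ₀ - μ)^{*m}` -/
noncomputable def kernel (μ : ℤ → ℝ) (n m : ℕ) : ℤ → ℝ :=
  conv (convPow μ n) (convPow (deltaSub μ) m)

/-- The convolution `ν * f` of a function `ν` on the integers with a vector valued function `f`. -/
noncomputable def act {E : Type*} [NormedAddCommGroup E] [NormedSpace ℝ E] (ν : ℤ → ℝ)
    (f : ℤ → E) (k : ℤ) : E := ∑' j : ℤ, ν j • f (k - j)

/-- the level set of the maximal function of order `m`: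
`{k : sup_{n ≥ 1} n^m |μ^{*n} * (δ₀ - μ)^{*m} * f (k)| ≥ lam}` -/
def levelSet {E : Type*} [NormedAddCommGroup E] [NormedSpace ℝ E] (μ : ℤ → ℝ) (m : ℕ)
    (f : ℤ → E) (lam : ℝ) : Set ℤ :=
  {k : ℤ | ENNReal.ofReal lam ≤ ⨆ n : ℕ, ⨆ _ : 1 ≤ n,
    ENNReal.ofReal ((n : ℝ) ^ m * ‖act (kernel μ n m) f k‖)}

lemma convPow_eq (ν : ℤ → ℝ) (n : ℕ) : convPow ν n = Pool.Agent.R248.Ritt.cvPow ν n := by
  induction n with
  | zero => rfl
  | succ n ih =>
    show conv ν (convPow ν n) = Pool.Agent.R248.Ritt.cv ν (Pool.Agent.R248.Ritt.cvPow ν n)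
    rw [ih]
    rfl

lemma kernel_eq (μ : ℤ → ℝ) (n m : ℕ) : kernel μ n m = Pool.Agent.U469.RT.kr μ n m := by
  unfold kernel Pool.Agent.U469.RT.kr
  rw [convPow_eq, convPow_eq]
  rfl

/-- **Result** (positive answer to the second question). For every order `m` there is a constant
`C`, depending only on `m`, such that every symmetric probability measure `μ` on the integers
which is non-increasing on the natural numbers satisfies the weak type maximal inequality of order
`m` with the constant `C`, for all absolutely summable functions with values in a Banach space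
(in particular for real and for complex valued functions). -/
theorem result (m : ℕ) : ∃ C : ℝ, 0 < C ∧ ∀ μ : ℤ → ℝ, (∀ k, 0 ≤ μ k) → HasSum μ 1 →
    (∀ k, μ (-k) = μ k) → (∀ n : ℕ, μ ((n : ℤ) + 1) ≤ μ (n : ℤ)) →
    ∀ (E : Type*) [NormedAddCommGroup E] [NormedSpace ℝ E] [CompleteSpace E] (f : ℤ → E),
      Summable (fun k => ‖f k‖) → ∀ lam : ℝ, 0 < lam →
      (levelSet μ m f lam).Finite ∧
        lam * ((levelSet μ m f lam).ncard : ℝ) ≤ C * ∑' k, ‖f k‖ := by
  have hR := Pool.Agent.U423.RT.OPR.main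
  have hSum := Pool.Agent.U750.RT.SUM.t_SUM Pool.Agent.U606.RT.TOPSMB.t_TOP
    Pool.Agent.U606.RT.TOPSMB.t_SMB (Pool.Agent.U469.RT.trm_bound hR
      (Pool.Agent.U15.RT.OPW.t_OPW hR)
      (Pool.Agent.U739.RT.OPD.opd Pool.Agent.U128.RT.OPT.t_OPT hR) Pool.Agent.U399.RT.SPL.t_SPL)
  obtain ⟨C, hC, h⟩ := Pool.Agent.U469.RT.asm (Pool.Agent.U574.RT.Mix.t_MIX hSum)
    Pool.Agent.U608.RT.LIA.t_LIA Pool.Agent.U427.RT.LIB.lib Pool.Agent.U329.RT.HL.t_HL
    Pool.Agent.U103.RT.DOM.t_DOM m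
  refine ⟨C, hC, fun μ h0 h1 hs ha E _ _ _ f hf lam hlam => ?_⟩
  have e : levelSet μ m f lam = {k : ℤ | ENNReal.ofReal lam ≤ ⨆ n : ℕ, ⨆ _ : 1 ≤ n,
      ENNReal.ofReal ((n : ℝ) ^ m * ‖Pool.Agent.U469.RT.act
        (Pool.Agent.U469.RT.kr μ n m) f k‖)} := by
    unfold levelSet
    simp only [kernel_eq]
    rfl
  rw [e]
  exact h μ h0 h1 hs ha E f hf lam hlam

end Pool.Agent.Results.MP_e7950b_an.WeakTypeAllOrders
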